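import Pool.Agent.Helper23.EC.EGoals

set_option autoImplicit false

open MeasureTheory Filter Topology Set

namespace Pool.Agent.Helper48.EC.E_ED3

open EC237

theorem FX0 (z : ℝ) (M S U2 U3 V2 V3 : ℂ) :
    FX z 1 (-1) 0 M S U2 U3 V2 V3 = (z:ℂ) ^ 2 * (S / M) := by
  unfold FX; simp

theorem FX2 (z : ℝ) (M S U2 U3 V2 V3 : ℂ) : FX z 1 (-1) 2 M S U2 U3 V2 V3 =
    -(z:ℂ) ^ 4 * ((U3 + V3) / M + 2 * (U2 + V2) / M ^ 2 + 4 * (S / M ^ 3)) := by
  unfold FX
  rw [if_neg (by norm_num), if_neg (by norm_num)]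
  ring

theorem sU10 : sU 1 0 = (ew1 : ℂ) := by
  unfold sU
  rw [if_neg (by simp)]
  congr 1
  have h : Real.pi * ((1:ℤ):ℝ) / 6 = Real.pi / 6 := by push_cast; ring
  rw [h, Real.cos_pi_div_six, Real.sin_pi_div_six]
  unfold ew1
  ring

theorem sV50 : sV 5 0 = -(ew1 : ℂ) := by
  unfold sV
  rw [if_neg (by simp)]
  have h : Real.pi * ((5:ℤ):ℝ) / 6 = Real.pi - Real.pi / 6 := by push_cast; ring
  rw [h, Real.cos_pi_sub, Real.sin_pi_sub, Real.cos_pi_div_six, Real.sin_pi_div_six]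
  rw [← Complex.ofReal_neg]
  congr 1
  unfold ew1
  ring

/-- the real sign weight -/
noncomputable def sg (k n : ℤ) : ℝ := Real.pi / 6 * ((n.sign : ℤ) - ((k - n).sign : ℤ) : ℝ)

theorem sg_anti (k n : ℤ) : sg k (k - n) = -sg k n := by
  unfold sg
  rw [show k - (k - n) = n by ring]
  ring

theorem sg_half (n : ℤ) : sg (2 * n) n = 0 := by
  unfold sg
  rw [show 2 * n - n = n by ring]
  ring

theorem sg_bd (k n : ℤ) : |sg k n| ≤ Real.pi / 3 := by
  unfold sg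
  rw [abs_mul, abs_of_pos (by positivity : (0:ℝ) < Real.pi / 6)]
  have h : ∀ t : ℤ, |((t.sign : ℤ) : ℝ)| ≤ 1 := by
    intro t
    rcases lt_trichotomy t 0 with h | h | h
    · rw [Int.sign_eq_neg_one_of_neg h]; simp
    · rw [h]; simp
    · rw [Int.sign_eq_one_of_pos h]; simp
  have h2 : |((n.sign : ℤ) : ℝ) - ((k - n).sign : ℤ)| ≤ 2 := by
    have := abs_sub (((n.sign : ℤ) : ℝ)) (((k - n).sign : ℤ) : ℝ)
    linarith [h n, h (k - n)]
  have := Real.pi_pos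
  nlinarith

theorem Seq (k n : ℤ) (h0 : n ≠ 0) (hk : k - n ≠ 0) :
    sU 1 n + sV 5 (k - n) = Complex.I * (sg k n : ℂ) := by
  unfold sU sV sg
  rw [if_pos h0, if_pos hk]
  push_cast
  ring

/-- real part of `M^{-p}` -/
noncomputable def Rp (z : ℝ) (k m : ℤ) (p : ℕ) (n : ℤ) : ℝ := ((MM z k m n)⁻¹ ^ p).re

theorem MM_conj (z : ℝ) (k m n : ℤ) : MM z k m (k - n) = (starRingEnd ℂ) (MM z k m n) := by
  unfold MM
  apply Complex.ext
  · simp
  · simp; ring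

theorem Rp_symm (z : ℝ) (k m : ℤ) (p : ℕ) (n : ℤ) : Rp z k m p (k - n) = Rp z k m p n := by
  unfold Rp
  rw [MM_conj, ← map_inv₀, ← map_pow, Complex.conj_re]

theorem im_I_mul (s : ℝ) (w : ℂ) : (Complex.I * (s:ℂ) * w).im = s * w.re := by
  simp

theorem MM_norm (z : ℝ) (hz : 0 < z) (k m n : ℤ) : |((k - 2 * n : ℤ) : ℝ)| * z ≤ ‖MM z k m n‖ := by
  have h : (MM z k m n).im = ((k - 2 * n : ℤ) : ℝ) * z := by
    unfold MM; simp
  have := Complex.abs_im_le_norm (MM z k m n)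
  rw [h, abs_mul, abs_of_pos hz] at this
  exact this

theorem Rp1_bd (z : ℝ) (hz : 0 < z) (k m n : ℤ) (h : k - 2 * n ≠ 0) :
    |Rp z k m 1 n| ≤ |(m:ℝ)| / z ^ 2 * (1 / ((k - 2 * n : ℤ) : ℝ) ^ 2) := by
  have hr : (0:ℝ) < |((k - 2 * n : ℤ) : ℝ)| := by
    rw [abs_pos]; exact_mod_cast h
  have hn := MM_norm z hz k m n
  have hpos : 0 < |((k - 2 * n : ℤ) : ℝ)| * z := by positivity
  unfold Rp
  rw [pow_one, Complex.inv_re, Complex.normSq_eq_norm_sq]
  have hre : (MM z k m n).re = m := by unfold MM; simp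
  rw [hre, abs_div, abs_of_nonneg (by positivity : (0:ℝ) ≤ ‖MM z k m n‖ ^ 2)]
  have h2 : (|((k - 2 * n : ℤ) : ℝ)| * z) ^ 2 ≤ ‖MM z k m n‖ ^ 2 :=
    pow_le_pow_left₀ hpos.le hn 2
  calc |(m:ℝ)| / ‖MM z k m n‖ ^ 2 ≤ |(m:ℝ)| / (|((k - 2 * n : ℤ) : ℝ)| * z) ^ 2 := by
        apply div_le_div_of_nonneg_left (abs_nonneg _) (by positivity) h2
    _ = |(m:ℝ)| / z ^ 2 * (1 / ((k - 2 * n : ℤ) : ℝ) ^ 2) := by
        rw [mul_pow, sq_abs]; field_simp

theorem Rp3_bd (z : ℝ) (hz : 0 < z) (k m n : ℤ) (h : k - 2 * n ≠ 0) :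
    |Rp z k m 3 n| ≤ 1 / z ^ 3 * (1 / ((k - 2 * n : ℤ) : ℝ) ^ 2) := by
  have h1 : (1:ℝ) ≤ |((k - 2 * n : ℤ) : ℝ)| := by
    rw [← Int.cast_abs]; exact_mod_cast Int.one_le_abs h
  have hn := MM_norm z hz k m n
  have hpos : 0 < |((k - 2 * n : ℤ) : ℝ)| * z := by positivity
  unfold Rp
  refine (Complex.abs_re_le_norm _).trans ?_
  rw [norm_pow, norm_inv]
  have h2 : ‖MM z k m n‖⁻¹ ≤ (|((k - 2 * n : ℤ) : ℝ)| * z)⁻¹ := inv_anti₀ hpos hn
  calc ‖MM z k m n‖⁻¹ ^ 3 ≤ ((|((k - 2 * n : ℤ) : ℝ)| * z)⁻¹) ^ 3 :=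
        pow_le_pow_left₀ (by positivity) h2 3
    _ = 1 / z ^ 3 * (1 / |((k - 2 * n : ℤ) : ℝ)| ^ 3) := by
        rw [mul_inv, mul_pow]; field_simp
    _ ≤ 1 / z ^ 3 * (1 / ((k - 2 * n : ℤ) : ℝ) ^ 2) := by
        apply mul_le_mul_of_nonneg_left _ (by positivity)
        rw [← sq_abs ((k - 2 * n : ℤ) : ℝ)]
        apply div_le_div_of_nonneg_left (by norm_num) (by positivity)
        exact pow_le_pow_right₀ h1 (by norm_num)

theorem sumsq (k : ℤ) : Summable (fun n : ℤ => 1 / ((k - 2 * n : ℤ) : ℝ) ^ 2) := by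
  have h : Summable (fun n : ℤ => 1 / (n : ℝ) ^ 2) := Real.summable_one_div_int_pow.mpr (by norm_num)
  have hi : Function.Injective (fun n : ℤ => k - 2 * n) := by
    intro a b hab
    have : k - 2 * a = k - 2 * b := hab
    omega
  exact h.comp_injective hi

/-- general cancellation -/
theorem core (z : ℝ) (k m : ℤ) (hk : k ≠ 0) (p : ℕ) (c B : ℝ)
    (g : ℤ → ℂ) (hg : ∀ n, n ≠ 0 → n ≠ k → g n = ((c * (sg k n * Rp z k m p n) : ℝ) : ℂ) * Complex.I)
    (hB : ∀ n, k - 2 * n ≠ 0 → |Rp z k m p n| ≤ B * (1 / ((k - 2 * n : ℤ) : ℝ) ^ 2)) :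
    HasSum g (g 0 + g k) := by
  classical
  set f : ℤ → ℂ := fun n => if n = 0 ∨ n = k then 0 else g n with hf
  have hfe : ∀ n, f n = if n = 0 ∨ n = k then 0 else
      ((c * (sg k n * Rp z k m p n) : ℝ) : ℂ) * Complex.I := by
    intro n
    rw [hf]
    by_cases h : n = 0 ∨ n = k
    · simp only [h, if_true]
    · simp only [h, if_false]
      push Not at h
      exact hg n h.1 h.2
  have hanti : ∀ n, f (k - n) = -f n := by
    intro n
    rw [hfe, hfe]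
    by_cases h : n = 0 ∨ n = k
    · have h' : k - n = 0 ∨ k - n = k := by omega
      rw [if_pos h, if_pos h']; simp
    · have h' : ¬ (k - n = 0 ∨ k - n = k) := by omega
      rw [if_neg h, if_neg h', sg_anti, Rp_symm]
      push_cast
      ring
  have hB0 : 0 ≤ B := by
    by_contra hneg
    push Not at hneg
    -- choose n with k - 2n ≠ 0
    have hne : k - 2 * (k + k) ≠ 0 := by omega
    have := hB (k + k) hne
    have h1 := abs_nonneg (Rp z k m p (k + k))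
    have h2 : (0:ℝ) < 1 / ((k - 2 * (k + k) : ℤ) : ℝ) ^ 2 := by
      apply one_div_pos.mpr
      have : ((k - 2 * (k + k) : ℤ) : ℝ) ≠ 0 := by exact_mod_cast hne
      positivity
    nlinarith
  have hsum : Summable f := by
    refine Summable.of_norm_bounded (g := fun n : ℤ => |c| * (Real.pi / 3) * B *
      (1 / ((k - 2 * n : ℤ) : ℝ) ^ 2)) ((sumsq k).mul_left _) ?_
    intro n
    rw [hfe]
    have hrhs : 0 ≤ |c| * (Real.pi / 3) * B * (1 / ((k - 2 * n : ℤ) : ℝ) ^ 2) := by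
      have := Real.pi_pos
      positivity
    by_cases h : n = 0 ∨ n = k
    · rw [if_pos h, norm_zero]; exact hrhs
    · rw [if_neg h]
      by_cases h2 : k - 2 * n = 0
      · have : sg k n = 0 := by
          have : k = 2 * n := by omega
          rw [this]; exact sg_half n
        rw [this]
        simpa using hrhs
      · rw [norm_mul, Complex.norm_I, mul_one, Complex.norm_real, Real.norm_eq_abs, abs_mul, abs_mul]
        have a1 := sg_bd k n
        have a2 := hB n h2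
        have a3 : |sg k n| * |Rp z k m p n| ≤ (Real.pi / 3) * (B * (1 / ((k - 2 * n : ℤ) : ℝ) ^ 2)) := by
          apply mul_le_mul a1 a2 (abs_nonneg _)
          have := Real.pi_pos
          positivity
        calc |c| * (|sg k n| * |Rp z k m p n|) ≤
            |c| * ((Real.pi / 3) * (B * (1 / ((k - 2 * n : ℤ) : ℝ) ^ 2))) :=
              mul_le_mul_of_nonneg_left a3 (abs_nonneg _)
          _ = _ := by ring
  have h0 : ∑' n, f n = 0 := by
    have e1 : ∑' n, f (k - n) = ∑' n, f n := (Equiv.subLeft k).tsum_eq f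
    have e2 : ∑' n, f (k - n) = -∑' n, f n := by
      rw [← tsum_neg]
      exact tsum_congr hanti
    rw [e1] at e2
    exact self_eq_neg.mp e2
  have hs0 : HasSum f 0 := by rw [← h0]; exact hsum.hasSum
  have hsing0 : HasSum (fun n : ℤ => if n = 0 then g n else 0) (g 0) := by
    have := hasSum_ite_eq (0:ℤ) (g 0)
    refine this.congr_fun ?_ |> fun h => h
    intro n
    by_cases h : n = 0
    · simp [h]
    · simp [h]
  have hsingk : HasSum (fun n : ℤ => if n = k then g n else 0) (g k) := by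
    have := hasSum_ite_eq (k:ℤ) (g k)
    refine this.congr_fun ?_ |> fun h => h
    intro n
    by_cases h : n = k
    · simp [h]
    · simp [h]
  have htot := (hs0.add hsing0).add hsingk
  rw [zero_add] at htot
  refine htot.congr_fun ?_ |> fun h => h
  intro n
  rw [hf]
  by_cases h : n = 0
  · subst h
    simp [hk.symm]
  · by_cases h' : n = k
    · subst h'
      simp [h]
    · simp [h, h']

/-- algebra at the two exceptional points -/
theorem mu_ne (z : ℝ) (hz : 0 < z) (k m : ℤ) (hk : k ≠ 0) :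
    ((m:ℂ) + Complex.I * k * z) ≠ 0 ∧ ((m:ℂ) - Complex.I * k * z) ≠ 0 := by
  have hkz : (k:ℝ) * z ≠ 0 := mul_ne_zero (by exact_mod_cast hk) hz.ne'
  constructor
  · intro h
    have := congrArg Complex.im h
    simp at this
    rcases this with h | h
    · exact hk h
    · exact hz.ne' h
  · intro h
    have := congrArg Complex.im h
    simp at this
    rcases this with h | h
    · exact hk h
    · exact hz.ne' h

theorem eD_pos (z : ℝ) (hz : 0 < z) (k m : ℤ) (hk : k ≠ 0) : 0 < eD z (k, m) := by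
  unfold eD
  have : (0:ℝ) < (k:ℝ) ^ 2 * z ^ 2 := by
    have : (k:ℝ) ≠ 0 := by exact_mod_cast hk
    positivity
  have h2 : (0:ℝ) ≤ (m:ℝ) ^ 2 := sq_nonneg _
  simp only
  linarith

theorem inv_mu (z : ℝ) (hz : 0 < z) (k m : ℤ) (hk : k ≠ 0) :
    ((m:ℂ) + Complex.I * k * z)⁻¹ = (((m / eD z (k, m) : ℝ) : ℂ) - ((k * z / eD z (k, m) : ℝ) : ℂ) * Complex.I) ∧
    ((m:ℂ) - Complex.I * k * z)⁻¹ = (((m / eD z (k, m) : ℝ) : ℂ) + ((k * z / eD z (k, m) : ℝ) : ℂ) * Complex.I) := by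
  obtain ⟨h1, h2⟩ := mu_ne z hz k m hk
  have hD := (eD_pos z hz k m hk).ne'
  have hDc : ((eD z (k, m) : ℝ) : ℂ) ≠ 0 := by exact_mod_cast hD
  have hDe : ((eD z (k, m) : ℝ) : ℂ) = (m:ℂ) ^ 2 + (k:ℂ) ^ 2 * (z:ℂ) ^ 2 := by
    unfold eD; push_cast; ring
  have hI := Complex.I_sq
  constructor
  · rw [inv_eq_one_div, div_eq_iff h1]
    push_cast
    field_simp
    rw [hDe]
    linear_combination ((k:ℂ) ^ 2 * z ^ 2) * hI
  · rw [inv_eq_one_div, div_eq_iff h2]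
    push_cast
    field_simp
    rw [hDe]
    linear_combination ((k:ℂ) ^ 2 * z ^ 2) * hI

theorem im_of (X : ℂ) (A B : ℝ) (h : X = (A:ℂ) + (B:ℂ) * Complex.I) : X.im = B := by
  rw [h]; simp

theorem g_zero_add (z : ℝ) (hz : 0 < z) (k m : ℤ) (hk : k ≠ 0) :
    gE0 z 0 k m 0 + gE0 z 0 k m k = Complex.I * (z:ℂ) ^ 2 * (eE0 z (k, m) : ℂ) := by
  obtain ⟨i1, i2⟩ := inv_mu z hz k m hk
  have hD := (eD_pos z hz k m hk).ne'
  have hM0 : MM z k m 0 = (m:ℂ) + Complex.I * k * z := by unfold MM; push_cast; ring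
  have hMk : MM z k m k = (m:ℂ) - Complex.I * k * z := by unfold MM; push_cast; ring
  have hs0 : sU 1 0 + sV 5 (k - 0) = (ew1 : ℂ) - Complex.I * ((Real.pi / 6 * k.sign : ℝ) : ℂ) := by
    rw [sU10]; unfold sV; rw [sub_zero, if_pos hk]; push_cast; ring
  have hsk : sU 1 k + sV 5 (k - k) = -(ew1 : ℂ) + Complex.I * ((Real.pi / 6 * k.sign : ℝ) : ℂ) := by
    rw [sub_self, sV50]; unfold sU; rw [if_pos hk]; push_cast; ring
  unfold gE0
  rw [FX0, FX0, hM0, hMk, hs0, hsk, div_eq_mul_inv _ ((m:ℂ) + Complex.I * k * z),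
    div_eq_mul_inv _ ((m:ℂ) - Complex.I * k * z), i1, i2]
  set a : ℝ := m / eD z (k, m) with ha
  set b : ℝ := k * z / eD z (k, m) with hb
  set t : ℝ := Real.pi / 6 * k.sign with ht
  have hI := Complex.I_sq
  rw [im_of _ (z ^ 2 * (ew1 * a - t * b)) (z ^ 2 * (-(ew1 * b) - t * a)) (by
    push_cast; linear_combination ((z:ℂ) ^ 2 * t * b) * hI)]
  rw [im_of _ (z ^ 2 * (-(ew1 * a) - t * b)) (z ^ 2 * (-(ew1 * b) + t * a)) (by
    push_cast; linear_combination ((z:ℂ) ^ 2 * t * b) * hI)]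
  have he : eE0 z (k, m) = -(4 * ew1 * b) := by
    unfold eE0; rw [hb]; simp only; ring
  rw [he]
  push_cast
  ring

theorem g_two_add (z : ℝ) (hz : 0 < z) (k m : ℤ) (hk : k ≠ 0) :
    gE0 z 2 k m 0 + gE0 z 2 k m k = Complex.I * (z:ℂ) ^ 2 * (eE2 z (k, m) : ℂ) := by
  obtain ⟨i1, i2⟩ := inv_mu z hz k m hk
  have hD := (eD_pos z hz k m hk).ne'
  have hM0 : MM z k m 0 = (m:ℂ) + Complex.I * k * z := by unfold MM; push_cast; ring
  have hMk : MM z k m k = (m:ℂ) - Complex.I * k * z := by unfold MM; push_cast; ring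
  have hs0 : sU 1 0 + sV 5 (k - 0) = (ew1 : ℂ) - Complex.I * ((Real.pi / 6 * k.sign : ℝ) : ℂ) := by
    rw [sU10]; unfold sV; rw [sub_zero, if_pos hk]; push_cast; ring
  have hsk : sU 1 k + sV 5 (k - k) = -(ew1 : ℂ) + Complex.I * ((Real.pi / 6 * k.sign : ℝ) : ℂ) := by
    rw [sub_self, sV50]; unfold sU; rw [if_pos hk]; push_cast; ring
  have dv : ∀ (x y : ℂ) (n : ℕ), x / y ^ n = x * y⁻¹ ^ n := by
    intro x y n; rw [div_eq_mul_inv, inv_pow]
  unfold gE0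
  rw [FX2, FX2, hM0, hMk, hs0, hsk, dv, dv, dv, dv, div_eq_mul_inv _ ((m:ℂ) + Complex.I * k * z),
    div_eq_mul_inv _ ((m:ℂ) - Complex.I * k * z), i1, i2]
  rw [if_pos rfl, if_pos rfl, if_neg (by simpa using hk), if_neg (by simpa using hk),
    if_neg hk, if_neg hk, if_pos (sub_self k), if_pos (sub_self k)]
  set a : ℝ := m / eD z (k, m) with ha
  set b : ℝ := k * z / eD z (k, m) with hb
  set t : ℝ := Real.pi / 6 * k.sign with ht
  set P : ℝ := Real.pi ^ 2 / 9 with hP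
  have hI := Complex.I_sq
  have w2 : ((a:ℂ) - b * Complex.I) ^ 2 = ((a ^ 2 - b ^ 2 : ℝ) : ℂ) - ((2 * a * b : ℝ) : ℂ) * Complex.I := by
    push_cast; linear_combination ((b:ℂ) ^ 2) * hI
  have w3 : ((a:ℂ) - b * Complex.I) ^ 3 = ((a ^ 3 - 3 * a * b ^ 2 : ℝ) : ℂ)
      - ((3 * a ^ 2 * b - b ^ 3 : ℝ) : ℂ) * Complex.I := by
    push_cast; linear_combination (3 * (a:ℂ) * (b:ℂ) ^ 2 - (b:ℂ) ^ 3 * Complex.I) * hI
  have v2 : ((a:ℂ) + b * Complex.I) ^ 2 = ((a ^ 2 - b ^ 2 : ℝ) : ℂ) + ((2 * a * b : ℝ) : ℂ) * Complex.I := by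
    push_cast; linear_combination ((b:ℂ) ^ 2) * hI
  have v3 : ((a:ℂ) + b * Complex.I) ^ 3 = ((a ^ 3 - 3 * a * b ^ 2 : ℝ) : ℂ)
      + ((3 * a ^ 2 * b - b ^ 3 : ℝ) : ℂ) * Complex.I := by
    push_cast; linear_combination (3 * (a:ℂ) * (b:ℂ) ^ 2 + (b:ℂ) ^ 3 * Complex.I) * hI
  rw [w2, w3, v2, v3]
  set p : ℝ := a ^ 2 - b ^ 2 with hp
  set q : ℝ := 2 * a * b with hq
  set r : ℝ := a ^ 3 - 3 * a * b ^ 2 with hr
  set u : ℝ := 3 * a ^ 2 * b - b ^ 3 with hu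
  rw [im_of _ (-z ^ 4 * (eZ13 * a + 2 * P * p + 4 * (ew1 * r - t * u)))
    (-z ^ 4 * (-(eZ13 * b) - 2 * P * q + 4 * (-(ew1 * u) - t * r))) (by
    push_cast; linear_combination (-(z:ℂ) ^ 4 * 4 * t * u) * hI)]
  rw [im_of _ (-z ^ 4 * (-(eZ13 * a) + 2 * P * p + 4 * (-(ew1 * r) - t * u)))
    (-z ^ 4 * (-(eZ13 * b) + 2 * P * q + 4 * (-(ew1 * u) + t * r))) (by
    push_cast; linear_combination (-(z:ℂ) ^ 4 * 4 * t * u) * hI)]
  have he : eE2 z (k, m) = z ^ 2 * (4 * eZ13 * b + 16 * ew1 * u) := by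
    unfold eE2; rw [hu, hb, ha]; simp only; field_simp; ring
  rw [he]
  push_cast
  ring

theorem thm : EC237.ED3 := by
  intro z hz k m hk
  constructor
  · rw [← g_zero_add z hz k m hk]
    refine core z k m hk 1 (2 * z ^ 2) (|(m:ℝ)| / z ^ 2) (gE0 z 0 k m) ?_ (Rp1_bd z hz k m)
    intro n h0 hn
    have hkn : k - n ≠ 0 := by omega
    unfold gE0
    rw [FX0, Seq k n h0 hkn, div_eq_mul_inv]
    congr 1
    congr 1
    rw [← Complex.ofReal_pow, Complex.im_ofReal_mul, im_I_mul]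
    unfold Rp
    rw [pow_one]
    ring
  · rw [← g_two_add z hz k m hk]
    refine core z k m hk 3 (-8 * z ^ 4) (1 / z ^ 3) (gE0 z 2 k m) ?_ (Rp3_bd z hz k m)
    intro n h0 hn
    have hkn : k - n ≠ 0 := by omega
    unfold gE0
    rw [FX2, Seq k n h0 hkn, if_neg h0, if_neg hkn, if_neg h0, if_neg hkn]
    congr 1
    congr 1
    have e : -(z:ℂ) ^ 4 * ((0 + 0) / MM z k m n + 2 * (0 + 0) / MM z k m n ^ 2 +
        4 * (Complex.I * (sg k n : ℂ) / MM z k m n ^ 3)) =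
        ((-4 * z ^ 4 : ℝ) : ℂ) * (Complex.I * (sg k n : ℂ) * ((MM z k m n)⁻¹ ^ 3)) := by
      push_cast
      rw [inv_pow]
      ring
    rw [e, Complex.im_ofReal_mul, im_I_mul]
    unfold Rp
    ring

end Pool.Agent.Helper48.EC.E_ED3
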